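import Pool.Agent.W788.NV.Stm

/-!
# NV-LAW: the law at time `t` and the semigroup; stationary vectors are invariant
-/

namespace Pool.Agent.W214.NV

open Finset Pool.Agent.W788.NV

lemma mulVec_mgen {S ι : Type} [Fintype S] [DecidableEq S] [Fintype ι]
    (r : ι → ℝ) (m : ι → S → S) (F : S → ℝ) (x : S) :
    Matrix.mulVec (mgen r m) F x = gf r m F x := by
  unfold mgen gf
  simp only [Matrix.mulVec, dotProduct]
  simp only [Finset.sum_mul]
  rw [Finset.sum_comm]
  refine Finset.sum_congr rfl (fun e _ => ?_)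
  simp only [mul_assoc, sub_mul, ite_mul, one_mul, zero_mul]
  rw [← Finset.mul_sum, Finset.sum_sub_distrib]
  simp

lemma sg_zero_mean {S ι : Type} [Fintype S] [DecidableEq S] [Fintype ι] (h : MK)
    (r : ι → ℝ) (m : ι → S → S) (μ : S → ℝ) (hμ : Matrix.vecMul μ (mgen r m) = 0)
    (F : S → ℝ) (t : ℝ) : mean μ (sg r m t F) = mean μ F := by
  have hgf : ∀ H : S → ℝ, mean μ (gf r m H) = 0 := by
    intro H
    have e1 : gf r m H = Matrix.mulVec (mgen r m) H := by
      funext x
      rw [mulVec_mgen]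
    rw [e1]
    have e2 : mean μ (Matrix.mulVec (mgen r m) H) = μ ⬝ᵥ (Matrix.mulVec (mgen r m) H) := rfl
    rw [e2, Matrix.dotProduct_mulVec, hμ, zero_dotProduct]
  have hd : ∀ s : ℝ, HasDerivAt (fun s => mean μ (sg r m s F)) 0 s := by
    intro s
    have e1 : HasDerivAt (fun s => ∑ x, μ x * sg r m s F x) (∑ x, μ x * sg r m s (gf r m F) x) s := by
      refine HasDerivAt.fun_sum (fun x _ => ?_)
      exact (h.deriv S ι r m F x s).const_mul (μ x)
    have e2 : (∑ x, μ x * sg r m s (gf r m F) x) = 0 := by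
      rw [h.comm S ι r m F s]
      exact hgf _
    rw [e2] at e1
    exact e1
  have hc := is_const_of_deriv_eq_zero (f := fun s => mean μ (sg r m s F))
    (fun s => (hd s).differentiableAt) (fun s => (hd s).deriv) t 0
  rw [hc, h.zero]

theorem law_ (h : MK) (h1 : S_GEN) (h2 : S_TOT) : S_LAW := by
  intro V _ _ G q θ hq hθ hθ1 hdg
  have hr : ∀ e : (V × Fin q) ⊕ (V × V), 0 ≤ mrate G q θ e := (h2 V G q θ hq hθ.le hθ1 hdg).1
  have hg := h1 V G q θ
  have key : ∀ (x0 : V → Fin q) (t : ℝ) (f : (V → Fin q) → ℝ),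
      mean (law G q θ x0 t) f = pt G q θ t f x0 := by
    intro x0 t f
    unfold pt sg law mean
    rw [hg]
    rfl
  refine ⟨?_, key, ?_⟩
  · intro x0 t ht
    constructor
    · intro y
      have e1 : law G q θ x0 t y = pt G q θ t (fun z => if z = y then 1 else 0) x0 := by
        rw [← key]
        unfold mean
        simp
      rw [e1]
      have e2 := h.mono (V → Fin q) ((V × Fin q) ⊕ (V × V)) (mrate G q θ) act
        (fun _ => 0) (fun z => if z = y then 1 else 0) x0 t hr ht
        (fun z => by split_ifs <;> norm_num)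
      rw [h.cst] at e2
      exact e2
    · have e1 : ∑ y, law G q θ x0 t y = mean (law G q θ x0 t) (fun _ => 1) := by
        unfold mean
        simp
      rw [e1, key]
      exact h.cst _ _ _ _ _ _ _
  · intro μ hμ t f
    obtain ⟨_, _, h3⟩ := hμ
    rw [hg] at h3
    exact sg_zero_mean h _ _ μ h3 f t

end Pool.Agent.W214.NV
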